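import Mathlib
import Pool.Agent.V5helper26.IR.Res

/-!
# Balance constants of interval orders of width `w`: error `w ^ (-2/3)` up to logarithms
-/

set_option autoImplicit false

namespace Pool.Agent.Results.MP_c890a7_co.IntervalOrdersTwoThirds

open Pool.Agent.TH447.KS (IsIntervalOrder dI)
open Pool.Agent.H931R3.Bal (HasWidth)
open Pool.Agent.H13R3.WB (balance prob)
open Pool.Agent.V5helper26.IR (Nested IncLe)

theorem result : ∃ C : ℝ, 0 < C ∧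
    (∀ w : ℕ, 1 ≤ w →
      (∀ (P : Type) [Fintype P] [PartialOrder P], IsIntervalOrder P → HasWidth P w →
        1 / 2 - C * (1 + Real.log w) ^ 7 / (w : ℝ) ^ (2 / 3 : ℝ) ≤ balance P) ∧
      1 / 2 - C * (1 + Real.log w) ^ 7 / (w : ℝ) ^ (2 / 3 : ℝ) ≤ dI w ∧
      dI w ≤ 1 / 2 - (1 + Real.log w) / (40000 * w)) ∧
    (∀ w v : ℕ, 1 ≤ w → C * (w : ℝ) ^ (3 / 2 : ℝ) * (1 + Real.log w) ^ 9 ≤ v → dI w < dI v) ∧
    (∀ (P : Type) [Fintype P] [PartialOrder P] (A : Finset P) (W : ℕ),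
      IsAntichain (· ≤ ·) (A : Set P) → 2 ≤ A.card → Nested A → IncLe A W →
      ∃ x ∈ A, ∃ y ∈ A, x ≠ y ∧ |prob P x y - 1 / 2| ≤
        C * (1 + Real.log ((W : ℝ) + A.card)) ^ 7 / (A.card : ℝ) ^ (2 / 3 : ℝ)) :=
  Pool.Agent.V5helper26.IR.final

end Pool.Agent.Results.MP_c890a7_co.IntervalOrdersTwoThirds
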