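import Pool.Agent.V5helper67.KS.Final

/-!
# The minimal balance constants of posets of width `w` are `1/2 - O(log log w / log w)`

With `δ_w` the infimum of the balance constants of the finite posets of width `w`, exactly as in the
problem: there is a constant `C` with `δ_w ≥ 1/2 - ε` as soon as `w ≥ exp (C log (2/ε) / ε)`, that
is, `1/2 - δ_w ≤ C log log w / log w`.  Together with the starting bound
`δ_w ≤ 1/2 - log w / (20000 w)` this gives `δ_w < δ_v` for all `v ≥ exp (C w)`, and a strict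
increase `δ_u < δ_{u+1}` with `w ≤ u ≤ exp (C w)`, for every `w ≥ 1`.

The new ingredient is a pigeonhole principle of Komlós type with the right exponent: if `N` random
variables with `2 ^ J` values satisfy `|P (X < Y) - P (Y < X)| ≥ δ` for any two of them, then
`N ≤ exp (30 J / δ)`; it follows from the positive definite kernels `exp (λ Re H) cos (μ Im H)`,
`|μ| ≤ λ`, of a Gram matrix `H`, and a trigonometric polynomial.
-/

set_option autoImplicit false

namespace Pool.Agent.Results.MP_c890a7_co.LogLogRate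

theorem result : ∃ C : ℝ, 0 < C ∧
    ∀ δ : ℕ → ℝ,
      (∀ w : ℕ, δ w = sInf {d : ℝ | ∃ (n : ℕ) (r : Fin n → Fin n → Prop),
          (∀ a, r a a) ∧ (∀ a b c, r a b → r b c → r a c) ∧
          (∀ a b, r a b → r b a → a = b) ∧
          (∃ s : Finset (Fin n), s.card = w ∧ ∀ a ∈ s, ∀ b ∈ s, a ≠ b → ¬ r a b) ∧
          (∀ s : Finset (Fin n), (∀ a ∈ s, ∀ b ∈ s, a ≠ b → ¬ r a b) → s.card ≤ w) ∧
          d = sSup {t : ℝ | ∃ x y : Fin n, ¬ r x y ∧ ¬ r y x ∧
            t = min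
              ((Nat.card {σ : Equiv.Perm (Fin n) //
                  (∀ a b, r a b → σ a ≤ σ b) ∧ σ x < σ y} : ℝ) /
                (Nat.card {σ : Equiv.Perm (Fin n) // ∀ a b, r a b → σ a ≤ σ b} : ℝ))
              ((Nat.card {σ : Equiv.Perm (Fin n) //
                  (∀ a b, r a b → σ a ≤ σ b) ∧ σ y < σ x} : ℝ) /
                (Nat.card {σ : Equiv.Perm (Fin n) // ∀ a b, r a b → σ a ≤ σ b} : ℝ))}}) →
      (∀ (ε : ℝ) (w : ℕ), 0 < ε → ε ≤ 1 / 2 →
        Real.exp (C * Real.log (2 / ε) / ε) ≤ w → 1 / 2 - ε ≤ δ w) ∧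
      (∀ w : ℕ, 16 ≤ w → 1 / 2 - C * Real.log (Real.log w) / Real.log w ≤ δ w) ∧
      (∀ w v : ℕ, 1 ≤ w → Real.exp (C * w) ≤ v → δ w < δ v) ∧
      (∀ w : ℕ, 1 ≤ w → ∃ u : ℕ, w ≤ u ∧ (u : ℝ) ≤ Real.exp (C * w) ∧ δ u < δ (u + 1)) :=
  Pool.Agent.V5helper67.KS.main

end Pool.Agent.Results.MP_c890a7_co.LogLogRate
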